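import Pool.Agent.Lib.MP_9c7981_al_H7.Main

/-!
# Growth of irredundant families

If `R` is right Kasch and finitely dense (a consequence of right generalized `R`-tight) and
`(x i)` is an infinite family none of whose members lies in the two-sided ideal generated by the
others, then there is such a family indexed by the subsets of the index set.  Hence a ring with
infinitely many simple right modules has at least `ℶ_ω` elements.
-/

set_option autoImplicit false
universe u v

namespace Pool.MP_9c7981_al.H7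

open Function Cardinal

section
variable {R : Type u} [Ring R]

/-- no `x i` lies in the two-sided ideal generated by the others -/
def Irred {ι : Type u} (x : ι → R) : Prop :=
  ∀ i, x i ∉ TwoSidedIdeal.span (x '' {i}ᶜ)

theorem Irred.injective {ι : Type u} {x : ι → R} (hx : Irred x) : Injective x := by
  intro i j hij
  by_contra hne
  apply hx i
  rw [hij]
  exact TwoSidedIdeal.subset_span ⟨j, fun h => hne h.symm, rfl⟩

theorem Irred.comp {ι κ : Type u} {x : ι → R} (hx : Irred x) {f : κ → ι} (hf : Injective f) :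
    Irred (x ∘ f) := by
  intro k hk
  apply hx (f k)
  refine TwoSidedIdeal.span_mono ?_ hk
  rintro _ ⟨j, hj, rfl⟩
  exact ⟨f j, fun h => hj (hf h), rfl⟩

/-- finitely many elements with prescribed support -/
theorem exists_support (hK : RightKasch R) (hD : FinDense R) {ι : Type u} {x : ι → R}
    (hx : Irred x) (A : Set ι) :
    ∃ F : Finset R, (∀ p ∈ F, ∀ y ∈ TwoSidedIdeal.span (x '' Aᶜ), p * y = 0) ∧
      ∀ i ∈ A, ∃ p ∈ F, p * x i ≠ 0 := by
  classical
  let K : Submodule Rᵐᵒᵖ R := toRight (TwoSidedIdeal.span (x '' Aᶜ))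
  let I : ι → Submodule Rᵐᵒᵖ R := fun i => toRight (TwoSidedIdeal.span (x '' {i}ᶜ))
  have h1 : ∀ i : ι, (1 : R) ∉ (I i).comap (lam (x i)) := by
    intro i h
    apply hx i
    have : x i * 1 ∈ TwoSidedIdeal.span (x '' {i}ᶜ) := h
    rwa [mul_one] at this
  choose M hM hMI using fun i => exists_coatom _ (h1 i)
  have hs : ∀ i, IsSimpleModule Rᵐᵒᵖ (R ⧸ M i) := fun i => isSimpleModule_iff_isCoatom.mpr (hM i)
  choose e he using fun i => hK (R ⧸ M i) (hs i)
  let Ψ0 : (A →₀ R) →ₗ[Rᵐᵒᵖ] R := Finsupp.lsum ℕ (fun i : A => lam (x i))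
  let Ψ : ((A →₀ R) × K) →ₗ[Rᵐᵒᵖ] R := Ψ0.coprod K.subtype
  let G : ((A →₀ R) × K) →ₗ[Rᵐᵒᵖ] R :=
    (Finsupp.lsum ℕ (fun i : A => e i ∘ₗ (M i).mkQ)) ∘ₗ LinearMap.fst _ _ _
  have hΨ0 : ∀ c : A →₀ R, Ψ0 c = c.sum (fun i r => x i * r) := by
    intro c
    rfl
  have hker : LinearMap.ker Ψ ≤ LinearMap.ker G := by
    rintro ⟨c, k⟩ h
    have h2 : Ψ0 c + (k : R) = 0 := by simpa [Ψ] using h
    have h3 : ∀ i : A, c i ∈ M i := by
      intro i
      apply hMI i
      change x i * c i ∈ TwoSidedIdeal.span (x '' {(i : ι)}ᶜ)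
      have h4 : Ψ0 c = x i * c i + (c.erase i).sum (fun i r => x i * r) := by
        rw [hΨ0, ← Finsupp.add_sum_erase' c i (fun i r => x i * r) (fun j => mul_zero _)]
      have h5 : x i * c i = -((c.erase i).sum (fun i r => x i * r)) - (k : R) := by
        rw [h4] at h2
        have h6 := eq_neg_of_add_eq_zero_left h2
        have h7 := eq_sub_of_add_eq h6
        rw [h7]
        abel
      rw [h5]
      apply TwoSidedIdeal.sub_mem
      · apply TwoSidedIdeal.neg_mem
        apply sum_mem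
        intro j hj
        apply TwoSidedIdeal.mul_mem_right
        apply TwoSidedIdeal.subset_span
        refine ⟨j, ?_, rfl⟩
        intro h6
        rw [Finsupp.mem_support_iff] at hj
        apply hj
        have : j = i := Subtype.ext h6
        rw [this, Finsupp.erase_same]
      · refine TwoSidedIdeal.span_mono ?_ k.2
        rintro _ ⟨j, hj, rfl⟩
        refine ⟨j, ?_, rfl⟩
        intro h6
        apply hj
        have : j = i := h6
        rw [this]
        exact i.2
    change (Finsupp.lsum ℕ (fun i : A => e i ∘ₗ (M i).mkQ)) c = 0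
    rw [Finsupp.lsum_apply, Finsupp.sum]
    apply Finset.sum_eq_zero
    intro i _
    change e i ((M i).mkQ (c i)) = 0
    have : (M i).mkQ (c i) = 0 := by
      rw [Submodule.mkQ_apply, Submodule.Quotient.mk_eq_zero]; exact h3 i
    rw [this, map_zero]
  let X : Submodule Rᵐᵒᵖ R := LinearMap.range Ψ
  let g : X →ₗ[Rᵐᵒᵖ] R := (LinearMap.ker Ψ).liftQ G hker ∘ₗ Ψ.quotKerEquivRange.symm.toLinearMap
  have hg : ∀ p, g ⟨Ψ p, ⟨p, rfl⟩⟩ = G p := by
    intro p
    simp only [g, LinearMap.comp_apply, LinearEquiv.coe_coe]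
    have : Ψ.quotKerEquivRange.symm ⟨Ψ p, ⟨p, rfl⟩⟩ = Submodule.Quotient.mk p := by
      rw [LinearEquiv.symm_apply_eq]
      rfl
    rw [this]
    rfl
  obtain ⟨F, hF⟩ := hD _ X.subtype (Submodule.injective_subtype _) g
  refine ⟨F, ?_, ?_⟩
  · intro p hp y hy
    have h2 := hF ⟨Ψ (0, ⟨y, hy⟩), ⟨_, rfl⟩⟩
    rw [hg] at h2
    have h3 : G (0, ⟨y, hy⟩) = 0 := by simp [G]
    have h4 := h2.mp h3 p hp
    have h5 : Ψ (0, ⟨y, hy⟩) = y := by simp [Ψ]
    change p * Ψ (0, ⟨y, hy⟩) = 0 at h4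
    rwa [h5] at h4
  · intro i hi
    by_contra hcon
    push Not at hcon
    have h2 := hF ⟨Ψ (Finsupp.single ⟨i, hi⟩ 1, 0), ⟨_, rfl⟩⟩
    rw [hg] at h2
    have h5 : Ψ (Finsupp.single ⟨i, hi⟩ 1, 0) = x i := by simp [Ψ, Ψ0]
    have h6 : G (Finsupp.single ⟨i, hi⟩ 1, 0) = 0 := by
      rw [h2]
      intro a ha
      change a * Ψ (Finsupp.single ⟨i, hi⟩ 1, 0) = 0
      rw [h5]
      exact hcon a ha
    have h7 : G (Finsupp.single ⟨i, hi⟩ 1, 0) = e i ((M i).mkQ 1) := by simp [G]
    rw [h7] at h6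
    have h8 : (M i).mkQ (1 : R) = 0 := he i (by rw [h6, map_zero])
    rw [Submodule.mkQ_apply, Submodule.Quotient.mk_eq_zero] at h8
    apply (hM i).1
    rw [eq_top_iff]
    intro y _
    have := right_mul_mem (M i) h8 y
    rwa [one_mul] at this

/-- growth along a family of sets none of which is covered by finitely many others -/
theorem growth (hK : RightKasch R) (hD : FinDense R) {ι κ : Type u} {x : ι → R}
    (hx : Irred x) (f : κ → Set ι) (hf : ∀ (j : κ) (T : Finset κ), j ∉ T → ¬ f j ⊆ ⋃ t ∈ T, f t) :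
    ∃ y : κ → R, Irred y := by
  classical
  choose F hF1 hF2 using fun j => exists_support hK hD hx (f j)
  have h1 : ∀ j, ∃ p ∈ F j, ∀ T : Finset κ, j ∉ T → ∃ i, i ∉ (⋃ t ∈ T, f t) ∧ ∃ r, p * r * x i ≠ 0 := by
    intro j
    by_contra hcon
    push Not at hcon
    choose! T hT1 hT2 using hcon
    apply hf j ((F j).biUnion T)
    · intro h
      obtain ⟨p, hp, hpT⟩ := Finset.mem_biUnion.mp h
      exact hT1 p hp hpT
    · intro i hi
      obtain ⟨p, hp, hpi⟩ := hF2 j i hi
      by_contra hcon2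
      apply hpi
      have h3 := hT2 p hp i (by
        intro h4
        apply hcon2
        rw [Set.mem_iUnion₂] at h4 ⊢
        obtain ⟨t, ht, hit⟩ := h4
        exact ⟨t, Finset.mem_biUnion.mpr ⟨p, hp, ht⟩, hit⟩) 1
      rwa [mul_one] at h3
  choose y hy1 hy2 using h1
  refine ⟨y, ?_⟩
  intro j hj
  obtain ⟨N, hN⟩ := exists_ideal
    (s := {p : R | ∃ T : Finset κ, j ∉ T ∧ ∀ i, i ∉ (⋃ t ∈ T, f t) → ∀ r, p * r * x i = 0})
    ⟨∅, by simp, by simp⟩
    (by
      rintro p q ⟨T, hT, hp⟩ ⟨T', hT', hq⟩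
      refine ⟨T ∪ T', by simp [hT, hT'], ?_⟩
      intro i hi r
      have e1 := hp i (fun h => hi (by
        rw [Set.mem_iUnion₂] at h ⊢
        obtain ⟨t, ht, hit⟩ := h
        exact ⟨t, Finset.mem_union_left _ ht, hit⟩)) r
      have e2 := hq i (fun h => hi (by
        rw [Set.mem_iUnion₂] at h ⊢
        obtain ⟨t, ht, hit⟩ := h
        exact ⟨t, Finset.mem_union_right _ ht, hit⟩)) r
      rw [add_mul, add_mul, e1, e2, add_zero])
    (by
      rintro s p ⟨T, hT, hp⟩
      refine ⟨T, hT, fun i hi r => ?_⟩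
      rw [mul_assoc s p r, mul_assoc, hp i hi r, mul_zero])
    (by
      rintro s p ⟨T, hT, hp⟩
      refine ⟨T, hT, fun i hi r => ?_⟩
      rw [mul_assoc p s r]
      exact hp i hi _)
  have h2 : TwoSidedIdeal.span (y '' {j}ᶜ) ≤ N := by
    rw [TwoSidedIdeal.span_le]
    rintro _ ⟨k, hk, rfl⟩
    refine (hN _).mpr ⟨{k}, ?_, ?_⟩
    · rw [Finset.mem_singleton]
      exact fun h => hk h.symm
    · intro i hi r
      rw [mul_assoc]
      apply hF1 k (y k) (hy1 k)
      apply TwoSidedIdeal.mul_mem_left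
      apply TwoSidedIdeal.subset_span
      refine ⟨i, ?_, rfl⟩
      intro h3
      apply hi
      simpa using h3
  obtain ⟨T, hT, h3⟩ := (hN _).mp (h2 hj)
  obtain ⟨i, hi, r, hr⟩ := hy2 j T hT
  exact hr (h3 i hi r)

/-- an infinite set carries a family of subsets, indexed by all subsets, none of which is covered by
finitely many others -/
theorem exists_sets (ι : Type u) [Infinite ι] : ∃ f : Set ι → Set ι,
    ∀ (j : Set ι) (T : Finset (Set ι)), j ∉ T → ¬ f j ⊆ ⋃ t ∈ T, f t := by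
  classical
  have hc : #(Finset ι × Finset ι) = #ι := by
    rw [← mul_def, mk_finset_of_infinite]
    exact mul_eq_self (aleph0_le_mk ι)
  obtain ⟨e⟩ := Cardinal.eq.mp hc
  refine ⟨fun Y => Set.range (fun s : Finset ι => e (s, s.filter (· ∈ Y))), ?_⟩
  intro j T hj hcov
  have h1 : ∀ t ∈ T, ∃ a : ι, ¬ (a ∈ j ↔ a ∈ t) := by
    intro t ht
    by_contra hcon
    push Not at hcon
    apply hj
    have : j = t := Set.ext fun a => by
      have := hcon a
      tauto
    rw [this]; exact ht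
  choose! a ha using h1
  have h2 := hcov ⟨T.image a, rfl⟩
  rw [Set.mem_iUnion₂] at h2
  obtain ⟨t, ht, s, hs⟩ := h2
  have h3 := e.injective hs
  rw [Prod.mk.injEq] at h3
  obtain ⟨h4, h5⟩ := h3
  rw [h4] at h5
  apply ha t ht
  have h6 : a t ∈ T.image a := Finset.mem_image_of_mem a ht
  have h7 := Finset.ext_iff.mp h5 (a t)
  rw [Finset.mem_filter, Finset.mem_filter] at h7
  tauto

theorem growth_pow (hK : RightKasch R) (hD : FinDense R) {ι : Type u} [Infinite ι] {x : ι → R}
    (hx : Irred x) : ∃ y : Set ι → R, Irred y := by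
  obtain ⟨f, hf⟩ := exists_sets ι
  exact growth hK hD hx f hf

/-- one socle element for each simple module -/
theorem exists_irred_cls (hK : RightKasch R) : ∃ x : Cls R → R, Irred x := by
  classical
  choose s f hsf using fun q : Cls R => exists_socle_section hK (Sim q)
  refine ⟨fun q => (s q (Submodule.Quotient.mk 1) : rightSocle R), ?_⟩
  intro q hq
  obtain ⟨N, hN⟩ := exists_ideal
    (s := {y : R | ∃ h : y ∈ rightSocle R, ∀ g : (rightSocle R) →ₗ[Rᵐᵒᵖ] Sim q, g ⟨y, h⟩ = 0})
    ⟨Submodule.zero_mem _, fun g => map_zero g⟩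
    (by
      rintro a b ⟨ha, ha'⟩ ⟨hb, hb'⟩
      refine ⟨Submodule.add_mem _ ha hb, fun g => ?_⟩
      have := g.map_add ⟨a, ha⟩ ⟨b, hb⟩
      rw [ha' g, hb' g, add_zero] at this
      exact this)
    (by
      rintro r a ⟨ha, ha'⟩
      refine ⟨socle_invariant (lam r) ha, fun g => ?_⟩
      exact ha' (g ∘ₗ lamV r))
    (by
      rintro r a ⟨ha, ha'⟩
      refine ⟨right_mul_mem _ ha r, fun g => ?_⟩
      have := g.map_smul (MulOpposite.op r) ⟨a, ha⟩
      rw [ha' g, smul_zero] at this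
      exact this)
  have h2 : TwoSidedIdeal.span ((fun q => ((s q (Submodule.Quotient.mk 1) : rightSocle R) : R)) ''
      {q}ᶜ) ≤ N := by
    rw [TwoSidedIdeal.span_le]
    rintro _ ⟨k, hk, rfl⟩
    refine (hN _).mpr ⟨Subtype.property _, fun g => ?_⟩
    have h3 := map_eq_zero_of_ne (show k ≠ q from hk) (g ∘ₗ s k)
    exact LinearMap.congr_fun h3 (Submodule.Quotient.mk 1)
  obtain ⟨h3, h4⟩ := (hN _).mp (h2 hq)
  have h5 := h4 (f q)
  have h6 : f q (s q (Submodule.Quotient.mk 1)) = (Submodule.Quotient.mk 1 : Sim q) :=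
    LinearMap.congr_fun (hsf q) _
  have h7 : (Submodule.Quotient.mk 1 : Sim q) = 0 := h6.symm.trans h5
  rw [Submodule.Quotient.mk_eq_zero] at h7
  apply (rep_coatom q).1
  rw [eq_top_iff]
  intro y _
  have := right_mul_mem (rep q) h7 y
  rwa [one_mul] at this

theorem exists_irred_beth (hK : RightKasch R) (hD : FinDense R) (h : Infinite (Cls R)) (n : ℕ) :
    ∃ (ι : Type u) (x : ι → R), #ι = beth (n : Ordinal.{u}) ∧ Irred x := by
  induction n with
  | zero =>
    obtain ⟨x, hx⟩ := exists_irred_cls hK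
    obtain ⟨f⟩ : Nonempty (ULift.{u} ℕ ↪ Cls R) := by
      rw [← Cardinal.le_def]
      simp
    refine ⟨ULift.{u} ℕ, x ∘ f, ?_, hx.comp f.injective⟩
    simp
  | succ n ih =>
    obtain ⟨ι, x, hι, hx⟩ := ih
    have : Infinite ι := by
      rw [Cardinal.infinite_iff, hι]
      exact aleph0_le_beth _
    obtain ⟨y, hy⟩ := growth_pow hK hD hx
    refine ⟨Set ι, y, ?_, hy⟩
    rw [mk_set, hι, Nat.cast_succ, beth_add_one]

/-- A right Kasch, right generalized `R`-tight ring with fewer than `ℶ_ω` elements has only finitely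
many simple right modules. -/
theorem finite_cls_of_card (hK : RightKasch R) (hD : FinDense R)
    (h : #R < beth (Ordinal.omega0 : Ordinal.{u})) : Finite (Cls R) := by
  by_contra hcon
  have hinf : Infinite (Cls R) := not_finite_iff_infinite.mp hcon
  rw [beth_limit Ordinal.isSuccLimit_omega0] at h
  obtain ⟨⟨a, ha⟩, h1⟩ := exists_lt_of_lt_ciSup' h
  obtain ⟨n, rfl⟩ := Ordinal.lt_omega0.mp ha
  obtain ⟨ι, x, hι, hx⟩ := exists_irred_beth hK hD hinf n
  have h2 := mk_le_of_injective hx.injective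
  rw [hι] at h2
  exact absurd h1 (not_lt.mpr h2)

end

end Pool.MP_9c7981_al.H7
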