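import Pool.Agent.Lib.MP_9c7981_al_H22.Growth

/-!
# Rings with fewer than `ℶ_ω` elements

The main theorems of `MP_9c7981_al_H7` with the hypothesis finitely many simple right modules
replaced by finitely many simple right modules or fewer than `ℶ_ω` elements.
-/

set_option autoImplicit false
universe u v

namespace Pool.MP_9c7981_al.H7

open Function Cardinal

theorem finitelyManySimples_of_finite {R : Type u} [Ring R] (h : Finite (Cls R)) :
    FinitelyManySimples R := by
  classical
  have := Fintype.ofFinite (Cls R)
  refine ⟨Finset.univ.image (fun q : Cls R => rep q), ?_⟩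
  intro M hM
  obtain ⟨q, hq⟩ := exists_cls hM
  exact ⟨rep q, Finset.mem_image_of_mem _ (Finset.mem_univ q), hq⟩

/-- A right Kasch, right generalized `R`-tight ring with fewer than `ℶ_ω` elements has only finitely
many simple right modules up to isomorphism. -/
theorem finitelyManySimples_of_card (R : Type u) [Ring R] (hK : RightKasch R)
    (hT : RightGenRTight R) (h : #R < beth (Ordinal.omega0 : Ordinal.{u})) :
    FinitelyManySimples R :=
  finitelyManySimples_of_finite (finite_cls_of_card hK (finDense_of_tight hT) h)

theorem nil_radical_card (R : Type u) [Ring R] (hK : RightKasch R) (hT : RightGenRTight R)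
    (h : (CompletelyNilModSing R ∧ (#R < beth (Ordinal.omega0 : Ordinal.{u}) ∨
      FinitelyManySimples R ∨ BoundedHomogeneousLength R ∨ WeaklyTNilpotentModSing R ∨
      PIModSing R)) ∨ BoundedIndexModSing R ∨ SemilocalNilModSing R) :
    SocleFGEssential R := by
  apply nil_radical_main R hK hT
  rcases h with ⟨h1, h | h⟩ | h
  · exact Or.inl ⟨h1, Or.inl (finitelyManySimples_of_card R hK hT h)⟩
  · exact Or.inl ⟨h1, h⟩
  · exact Or.inr h

theorem finite_simples_card (R : Type u) [Ring R] (hK : RightKasch R) (hT : RightGenRTight R)
    (hfin : #R < beth (Ordinal.omega0 : Ordinal.{u}) ∨ FinitelyManySimples R)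
    (h : RadicalFaithfulOnHyperplane R ∨ RadicalActsTrivially R ∨ SimplesKilledByRadical R ∨
      ActionsInvertible R ∨
      ∃ (k : Type v) (_ : Field k) (_ : Algebra k R), AlgebraicOnMinimal k R) :
    SocleFGEssential R :=
  finite_simples_main R hK hT (hfin.elim (finitelyManySimples_of_card R hK hT) id) h

end Pool.MP_9c7981_al.H7
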