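import Pool.Agent.Lib.MP_9c7981_al_H22.Main

/-!
# Algebras over large fields

If `R` is an algebra over a field `k` with `dim_k R < |k|`, then every endomorphism of a minimal
right ideal is algebraic over `k`.
-/

set_option autoImplicit false
universe u v

namespace Pool.MP_9c7981_al.H7

open Function Cardinal Polynomial

theorem algebraic_of_rank_lt (k : Type v) [Field k] (R : Type u) [Ring R] [Algebra k R]
    (h : Cardinal.lift.{v} (Module.rank k R) < Cardinal.lift.{u} #k) :
    AlgebraicOnMinimal k R := by
  classical
  intro K hK a haK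
  by_contra hcon
  push Not at hcon
  -- nonzero polynomials in `a` act bijectively on `K`
  have hstab : ∀ p : Polynomial k, ∀ x ∈ K, (Polynomial.aeval a p) * x ∈ K := by
    intro p
    induction p using Polynomial.induction_on' with
    | add p q hp hq =>
      intro x hx
      rw [map_add, add_mul]
      exact K.add_mem (hp x hx) (hq x hx)
    | monomial n c =>
      have hpow : ∀ m : ℕ, ∀ x ∈ K, a ^ m * x ∈ K := by
        intro m
        induction m with
        | zero => intro x hx; rwa [pow_zero, one_mul]
        | succ m ih => intro x hx; rw [pow_succ', mul_assoc]; exact haK _ (ih x hx)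
      intro x hx
      rw [Polynomial.aeval_monomial, Algebra.commutes, mul_assoc, Algebra.commutes, ← mul_assoc]
      exact K.smul_mem (MulOpposite.op (algebraMap k R c)) (hpow n x hx)
  obtain ⟨x0, hx0, hx0ne⟩ : ∃ x ∈ K, x ≠ 0 := (Submodule.ne_bot_iff _).mp hK.1
  have hy : ∀ c : k, ∃ y ∈ K, (Polynomial.aeval a (X - C c)) * y = x0 := fun c =>
    surj_on hK (hstab _) (hcon _ (Polynomial.X_sub_C_ne_zero c)) x0 hx0
  choose y hyK hy using hy
  have hind : LinearIndependent k y := by
    rw [linearIndependent_iff']
    intro s g hg i hi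
    by_contra hgi
    let q : Polynomial k := ∑ c ∈ s, C (g c) * ∏ d ∈ s.erase c, (X - C d)
    have hq0 : q ≠ 0 := by
      intro h0
      have h1 : q.eval i = g i * ∏ d ∈ s.erase i, (i - d) := by
        simp only [q, Polynomial.eval_finsetSum, Polynomial.eval_mul, Polynomial.eval_C,
          Polynomial.eval_prod, Polynomial.eval_sub, Polynomial.eval_X]
        rw [Finset.sum_eq_single i]
        · intro c hc hci
          rw [Finset.prod_eq_zero (Finset.mem_erase.mpr ⟨fun e => hci e.symm, hi⟩) (sub_self i),
            mul_zero]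
        · intro h; exact absurd hi h
      rw [h0, Polynomial.eval_zero] at h1
      rcases mul_eq_zero.mp h1.symm with h2 | h2
      · exact hgi h2
      · obtain ⟨d, hd, hd0⟩ := Finset.prod_eq_zero_iff.mp h2
        exact (Finset.mem_erase.mp hd).1 (sub_eq_zero.mp hd0).symm
    have hqx : (Polynomial.aeval a q) * x0 = 0 := by
      have h1 : (Polynomial.aeval a (∏ d ∈ s, (X - C d))) * ∑ c ∈ s, g c • y c = 0 := by
        rw [hg, mul_zero]
      rw [Finset.mul_sum] at h1
      rw [← h1]
      simp only [q, map_sum, Finset.sum_mul]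
      apply Finset.sum_congr rfl
      intro c hc
      rw [← Finset.mul_prod_erase s (fun d => X - C d) hc, mul_comm (X - C c), map_mul, map_mul,
        Polynomial.aeval_C, mul_assoc, mul_assoc, mul_smul_comm, hy c, mul_smul_comm,
        Algebra.smul_def]
    obtain ⟨x, hx, hxne⟩ := hcon q hq0
    exact hx0ne (pow_inj_on hK ⟨x, hx, hxne⟩ x0 hx0 hqx)
  have h1 := hind.cardinal_lift_le_rank
  exact absurd h (not_lt.mpr h1)

end Pool.MP_9c7981_al.H7

namespace Pool.MP_9c7981_al.H7

open Function Cardinal

theorem card_lt_of_rank_lt (k : Type u) [Field k] (R : Type u) [Ring R] [Algebra k R]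
    (h : Module.rank k R < #k) (hk : #k < beth (Ordinal.omega0 : Ordinal.{u})) :
    #R < beth (Ordinal.omega0 : Ordinal.{u}) := by
  let b := Module.Free.chooseBasis k R
  have h1 : #R = #(Module.Free.ChooseBasisIndex k R →₀ k) := Cardinal.mk_congr b.repr.toEquiv
  have h2 : #(Module.Free.ChooseBasisIndex k R) < #k := by
    rw [← Module.Free.rank_eq_card_chooseBasisIndex]
    exact h
  rcases isEmpty_or_nonempty (Module.Free.ChooseBasisIndex k R) with he | hne
  · rw [h1, Cardinal.mk_eq_one]
    exact lt_of_lt_of_le one_lt_aleph0 (Cardinal.aleph0_le_beth _)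
  rcases finite_or_infinite k with hf | hi
  · have h3 : Finite (Module.Free.ChooseBasisIndex k R) := by
      rw [← Cardinal.lt_aleph0_iff_finite]
      exact lt_trans h2 (Cardinal.lt_aleph0_iff_finite.mpr hf)
    have : Finite (Module.Free.ChooseBasisIndex k R →₀ k) :=
      Finite.of_injective (fun f : Module.Free.ChooseBasisIndex k R →₀ k => (f : _ → k))
        DFunLike.coe_injective
    rw [h1]
    exact lt_of_lt_of_le (Cardinal.lt_aleph0_iff_finite.mpr this) (Cardinal.aleph0_le_beth _)
  · rw [h1, Cardinal.mk_finsupp_of_infinite', max_eq_right h2.le]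
    exact hk

/-- The finite-simples theorem, with the case of algebras over large fields. -/
theorem finite_simples_rank (R : Type u) [Ring R] (hK : RightKasch R) (hT : RightGenRTight R) :
    (∀ (k : Type u) [Field k] [Algebra k R], Module.rank k R < #k →
      #k < beth (Ordinal.omega0 : Ordinal.{u}) → SocleFGEssential R) ∧
    ((#R < beth (Ordinal.omega0 : Ordinal.{u}) ∨ FinitelyManySimples R) →
      (RadicalFaithfulOnHyperplane R ∨ RadicalActsTrivially R ∨ SimplesKilledByRadical R ∨
        ActionsInvertible R ∨
        ∃ (k : Type v) (_ : Field k) (_ : Algebra k R),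
          AlgebraicOnMinimal k R ∨
            Cardinal.lift.{v} (Module.rank k R) < Cardinal.lift.{u} #k) →
      SocleFGEssential R) := by
  constructor
  · intro k _ _ h1 h2
    exact finite_simples_card.{u, u} R hK hT (Or.inl (card_lt_of_rank_lt k R h1 h2))
      (Or.inr (Or.inr (Or.inr (Or.inr ⟨k, inferInstance, inferInstance,
        algebraic_of_rank_lt k R (by simpa using h1)⟩))))
  · intro hfin h
    apply finite_simples_card.{u, v} R hK hT hfin
    rcases h with h | h | h | h | ⟨k, i1, i2, h | h⟩
    · exact Or.inl h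
    · exact Or.inr (Or.inl h)
    · exact Or.inr (Or.inr (Or.inl h))
    · exact Or.inr (Or.inr (Or.inr (Or.inl h)))
    · exact Or.inr (Or.inr (Or.inr (Or.inr ⟨k, i1, i2, h⟩)))
    · exact Or.inr (Or.inr (Or.inr (Or.inr ⟨k, i1, i2, algebraic_of_rank_lt k R h⟩)))

end Pool.MP_9c7981_al.H7
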